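import Pool.Agent.W4helper48.JN.Glue2
import Pool.Agent.W2helper51.JN.COMB
import Pool.Agent.W2helper69.JN.Up3
import Pool.Agent.W2helper71.JN.Four
import Pool.Agent.W2helper92.JN.NEX
import Pool.Agent.W4helper65.JN.Low
import Pool.Agent.W4helper85.JN.Link

/-!
# Polytopal joins with complete graphs: `d(G)` is determined up to the choice between 4 and 5

`IsPolytopal d H`: the graph `H` is isomorphic to the graph of a `d`-polytope (the convex hull of a
finite set in `ℝ^d` with interior points; vertices = extreme points, edges = exposed segments).
`joinComplete G n` is the join `G + K_n`, and `dJoin G = d(G)` is the least `d` such that `G + K_n`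
is `d`-polytopal for some `n ≥ 1`.

For every graph `G` on a finite nonempty set `V`:

* `d(G) = 1` iff `G` has one vertex, `d(G) = 2` iff `G = K_2`, and `d(G) = 3` iff `G` is the graph
  with two vertices and no edge, or a path with at least three vertices (`IsPathGraph`), or a
  2-connected outerplanar graph (`IsOuterHam`: at least three vertices in a cyclic order such that
  consecutive vertices are adjacent and no two edges cross);
* in all other cases (`¬ IsSmall G`) the number `d(G)` is 4 or 5 (the upper bound 5 for all graphs is
  the main point; the earlier bound was 6);
* in these cases `d(G) = 4` if the complement of `G` is a pseudoforest (`IsCoPseudoforest`: its edges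
  can be oriented with out-degrees at most one, i.e. each component has at most one cycle), if `G` is
  the graph of a 3-polytope, or if `G` is the graph of a 3-polytope with one vertex deleted;
* `G + K_n` is `d`-polytopal for some `n ≥ 1` exactly if `d ≥ d(G)`.

Ideas. Dimension 5: squares of linear forms expose all pairs of points of the Veronese surface; for
nonadjacent vertices `i`, `j` two further points are put on the conic over the line through their
parameter points, so that `i`, `j` are opposite vertices of a quadrilateral face, and one of the two
points is pulled. Dimension 4: points on the moment curve, and each vertex of `G` is a point near the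
midpoint of a special edge, pushed away from a point of the curve in the gap of the vertex that it
shall not be adjacent to. Dimension 3: central projection from a vertex that is adjacent to all others.
-/

set_option autoImplicit false

namespace Pool.Agent.Results.MP_2da123_co.FourOrFive

open Pool.Agent.W4helper48.JN

theorem result {V : Type} [Fintype V] [Nonempty V] (G : SimpleGraph V) :
    (dJoin G = 1 ↔ Fintype.card V = 1) ∧
    (dJoin G = 2 ↔ Fintype.card V = 2 ∧ G = ⊤) ∧
    (dJoin G = 3 ↔ (Fintype.card V = 2 ∧ G = ⊥) ∨ (3 ≤ Fintype.card V ∧ IsPathGraph G) ∨
      IsOuterHam G) ∧
    (¬ IsSmall G → dJoin G = 4 ∨ dJoin G = 5) ∧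
    (¬ IsSmall G → IsFourKind G → dJoin G = 4) ∧
    (∀ d, (∃ n ≥ 1, IsPolytopal d (joinComplete G n)) ↔ dJoin G ≤ d) :=
  assembly2 G Pool.Agent.W4helper85.JN.p_link Pool.Agent.W2helper51.JN.p_comb up3
    Pool.Agent.W4helper65.JN.p_low Pool.Agent.W2helper71.JN.p_four Pool.Agent.W2helper92.JN.p_nex

end Pool.Agent.Results.MP_2da123_co.FourOrFive
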